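import Pool.Agent.Helper69.ST.GoalsW
import Pool.Agent.Helper69.ST.NU

/-! # Project ST, part 3, packet NB: the numbers, middle κ -/

open MeasureTheory Set Complex Metric Filter
open scoped ContDiff Topology ENNReal

namespace Pool.Agent.Helper44.ST.NB

open Pool.Agent.Helper69.ST

theorem good_fifth (p k κ T : ℝ) (hp : 40 ≤ p) (hk : 4 * p ≤ 3 * k) (h0 : 27 / 100 ≤ κ)
    (h1 : κ ≤ 38 / 100) (hT : 14 / 25 * k * (126 / 125 + 9 / 10 * κ) ≤ T) : Good p κ T (p / 5) := by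
  have hkk : 0 ≤ (κ - 27 / 100) * (38 / 100 - κ) := mul_nonneg (by linarith) (by linarith)
  have hT2 : p * (4704 / 6250 + 84 / 125 * κ) ≤ T := by
    refine le_trans ?_ hT
    have h3 : 14 / 25 * (4 / 3 * p) * (126 / 125 + 9 / 10 * κ) ≤
        14 / 25 * k * (126 / 125 + 9 / 10 * κ) := by
      apply mul_le_mul_of_nonneg_right _ (by linarith)
      linarith
    refine le_trans (le_of_eq ?_) h3
    ring
  have hA : p * (4704 / 6250 - 1 / 5 + 84 / 125 * κ) ≤ T - p / 5 := by nlinarith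
  have hB : p * (4704 / 6250 - 4 / 5 + 34 / 125 * κ) ≤ T - p + p / 5 - 2 * (p / 5) * κ := by nlinarith
  have hB0 : 0 ≤ p * (4704 / 6250 - 4 / 5 + 34 / 125 * κ) := mul_nonneg (by linarith) (by linarith)
  have hA0 : 0 ≤ p * (4704 / 6250 - 1 / 5 + 84 / 125 * κ) := mul_nonneg (by linarith) (by linarith)
  refine ⟨by linarith, by linarith, ?_⟩
  calc (p / 5) ^ 2 * κ = p ^ 2 * (κ / 25) := by ring
    _ ≤ p ^ 2 * ((4704 / 6250 - 1 / 5 + 84 / 125 * κ) * (4704 / 6250 - 4 / 5 + 34 / 125 * κ)) := by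
        apply mul_le_mul_of_nonneg_left _ (sq_nonneg _)
        nlinarith
    _ = (p * (4704 / 6250 - 1 / 5 + 84 / 125 * κ)) * (p * (4704 / 6250 - 4 / 5 + 34 / 125 * κ)) := by
        ring
    _ ≤ _ := mul_le_mul hA hB hB0 (hA0.trans hA)

theorem good_j2 (p k κ T : ℝ) (hp : 40 ≤ p) (hk : 4 * p ≤ 3 * k) (h0 : 27 / 100 ≤ κ)
    (h1 : κ ≤ 38 / 100) (hT : 14 / 25 * k * (126 / 125 + 9 / 10 * κ) ≤ T) :
    Good p κ T (k / 2 - 3 * p / 10 + 4 / 5) := by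
  have hkk : 0 ≤ (κ - 27 / 100) * (38 / 100 - κ) := mul_nonneg (by linarith) (by linarith)
  obtain ⟨q, hq⟩ : ∃ q : ℝ, q = p - 40 := ⟨_, rfl⟩
  obtain ⟨s, hs⟩ : ∃ s : ℝ, s = k - 4 / 3 * p := ⟨_, rfl⟩
  have hq0 : 0 ≤ q := by linarith
  have hs0 : 0 ≤ s := by linarith
  have hpq : p = 40 + q := by linarith
  have hks : k = 4 / 3 * (40 + q) + s := by linarith
  have hsq : 0 ≤ s * q := mul_nonneg hs0 hq0
  -- the two factors
  have hA : 0 ≤ 14 / 25 * k * (126 / 125 + 9 / 10 * κ) - (k / 2 - 3 * p / 10 + 4 / 5) := by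
    have e : 14 / 25 * k * (126 / 125 + 9 / 10 * κ) - (k / 2 - 3 * p / 10 + 4 / 5) =
        (27448 / 1875 + 672 / 25 * κ) + q * (7237 / 18750 + 84 / 125 * κ) +
          s * (403 / 6250 + 63 / 125 * κ) := by rw [hpq, hks]; ring
    rw [e]
    have a1 : 0 ≤ q * (7237 / 18750 + 84 / 125 * κ) := mul_nonneg hq0 (by linarith)
    have a2 : 0 ≤ s * (403 / 6250 + 63 / 125 * κ) := mul_nonneg hs0 (by linarith)
    linarith
  have hB : 0 ≤ 14 / 25 * k * (126 / 125 + 9 / 10 * κ) - p + (k / 2 - 3 * p / 10 + 4 / 5) -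
      2 * (k / 2 - 3 * p / 10 + 4 / 5) * κ := by
    have e : 14 / 25 * k * (126 / 125 + 9 / 10 * κ) - p + (k / 2 - 3 * p / 10 + 4 / 5) -
      2 * (k / 2 - 3 * p / 10 + 4 / 5) * κ =
        (10448 / 1875 - 304 / 75 * κ) + q * (2237 / 18750 - 23 / 375 * κ) +
          s * (6653 / 6250 - 62 / 125 * κ) := by rw [hpq, hks]; ring
    rw [e]
    have a1 : 0 ≤ q * (2237 / 18750 - 23 / 375 * κ) := mul_nonneg hq0 (by linarith)
    have a2 : 0 ≤ s * (6653 / 6250 - 62 / 125 * κ) := mul_nonneg hs0 (by linarith)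
    linarith
  have hH : 0 ≤ (14 / 25 * k * (126 / 125 + 9 / 10 * κ) - (k / 2 - 3 * p / 10 + 4 / 5)) *
      (14 / 25 * k * (126 / 125 + 9 / 10 * κ) - p + (k / 2 - 3 * p / 10 + 4 / 5) -
        2 * (k / 2 - 3 * p / 10 + 4 / 5) * κ) - (k / 2 - 3 * p / 10 + 4 / 5) ^ 2 * κ := by
    have e : (14 / 25 * k * (126 / 125 + 9 / 10 * κ) - (k / 2 - 3 * p / 10 + 4 / 5)) *
      (14 / 25 * k * (126 / 125 + 9 / 10 * κ) - p + (k / 2 - 3 * p / 10 + 4 / 5) -
        2 * (k / 2 - 3 * p / 10 + 4 / 5) * κ) - (k / 2 - 3 * p / 10 + 4 / 5) ^ 2 * κ =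
        (286776704 / 3515625 - 20921024 / 140625 * κ - 68096 / 625 * κ ^ 2) +
        q * (68506676 / 17578125 - 4818536 / 703125 * κ - 13664 / 3125 * κ ^ 2) +
        q ^ 2 * (16189169 / 351562500 - 1096079 / 14062500 * κ - 644 / 15625 * κ ^ 2) +
        s * (93411044 / 5859375 + 1976416 / 234375 * κ - 48048 / 3125 * κ ^ 2) +
        s * q * (12262318 / 29296875 + 500149 / 2343750 * κ - 5691 / 15625 * κ ^ 2) +
        s ^ 2 * (2681159 / 39062500 + 397681 / 1562500 * κ - 3906 / 15625 * κ ^ 2) := by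
      rw [hpq, hks]; ring
    rw [e]
    have c1 : 0 ≤ 286776704 / 3515625 - 20921024 / 140625 * κ - 68096 / 625 * κ ^ 2 := by nlinarith
    have c2 : 0 ≤ 68506676 / 17578125 - 4818536 / 703125 * κ - 13664 / 3125 * κ ^ 2 := by nlinarith
    have c3 : 0 ≤ 16189169 / 351562500 - 1096079 / 14062500 * κ - 644 / 15625 * κ ^ 2 := by nlinarith
    have c4 : 0 ≤ 93411044 / 5859375 + 1976416 / 234375 * κ - 48048 / 3125 * κ ^ 2 := by nlinarith
    have c5 : 0 ≤ 12262318 / 29296875 + 500149 / 2343750 * κ - 5691 / 15625 * κ ^ 2 := by nlinarith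
    have c6 : 0 ≤ 2681159 / 39062500 + 397681 / 1562500 * κ - 3906 / 15625 * κ ^ 2 := by nlinarith
    have b2 := mul_nonneg hq0 c2
    have b3 := mul_nonneg (sq_nonneg q) c3
    have b4 := mul_nonneg hs0 c4
    have b5 := mul_nonneg hsq c5
    have b6 := mul_nonneg (sq_nonneg s) c6
    linarith
  refine ⟨by linarith, by linarith, ?_⟩
  refine le_trans (by linarith) (mul_le_mul (sub_le_sub_right hT _) ?_ hB (by linarith))
  linarith

theorem t : S_NB := by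
  intro p k κ T hp hk1 hk2 h0 h1 hT
  have hpR : (40 : ℝ) ≤ p := by exact_mod_cast hp
  have hkR : 4 * (p : ℝ) ≤ 3 * k := by exact_mod_cast hk1
  have hG1 := good_fifth p k κ T hpR hkR h0 h1 hT
  have hG2 := good_j2 p k κ T hpR hkR h0 h1 hT
  obtain ⟨e, he⟩ : ∃ e : ℕ, e = (p + 4) / 5 := ⟨_, rfl⟩
  obtain ⟨f, hf⟩ : ∃ f : ℕ, f = (k + 2 - p) / 2 := ⟨_, rfl⟩
  have he1 : 8 ≤ e := by omega
  have hf1 : 1 ≤ f := by omega
  have hef : 2 * (e + f - 1) < p := by omega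
  refine ⟨Finset.Icc (-((e + f - 1 : ℕ) : ℤ)) ((e + f - 1 : ℕ) : ℤ) \
    Finset.Icc (-((e - 1 : ℕ) : ℤ)) ((e - 1 : ℕ) : ℤ), ?_, ?_, ?_⟩
  · intro l hl
    have h3 := (Finset.mem_sdiff.mp hl).1
    rw [Finset.mem_Icc] at h3
    omega
  · have h5 := Finset.le_card_sdiff (Finset.Icc (-((e - 1 : ℕ) : ℤ)) ((e - 1 : ℕ) : ℤ))
      (Finset.Icc (-((e + f - 1 : ℕ) : ℤ)) ((e + f - 1 : ℕ) : ℤ))
    rw [Int.card_Icc, Int.card_Icc] at h5
    omega
  · intro l hl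
    obtain ⟨hl1, hl2⟩ := Finset.mem_sdiff.mp hl
    rw [Finset.mem_Icc] at hl1
    rw [Finset.mem_Icc, not_and_or] at hl2
    have h6 : (p : ℤ) ≤ 5 * |l| := by
      rcases abs_cases l with h | h <;> omega
    have h7 : 10 * |l| ≤ 5 * (k : ℤ) - 3 * p + 8 := by
      rcases abs_cases l with h | h <;> omega
    have h8 : (p : ℝ) ≤ 5 * |(l : ℝ)| := by exact_mod_cast h6
    have h9 : 10 * |(l : ℝ)| ≤ 5 * (k : ℝ) - 3 * p + 8 := by exact_mod_cast h7
    exact good_between p κ T _ _ _ (by linarith) hG1 hG2 (by linarith) (by linarith)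

end Pool.Agent.Helper44.ST.NB
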